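import Pool.Agent.Lib.MP_7cdc3e_gt.C.Defs
import Pool.Agent.Lib.MP_7cdc3e_gt.C.Wd
import Pool.Agent.Lib.AS.SpecLG2
import Pool.Agent.Lib.AS.LES
import Pool.Agent.Lib.AS.LH

/-!
# MP_7cdc3e_gt, C32, T1 and T2: definitions

* `pt ev z`: the evaluation at `z` as a vector of `W`: `ev g z = ⟪pt ev z, g⟫`;
* `apu k A`: the class `a ^ k` on `A ⊆ RP³` (a class on `up A`); `Ty ev i g`: `a ^ i ≠ 0` on the zero set;
* `Nm ev lam`: `lam` is positive on the nonzero nonnegative functions; `PF lam Φ`, `SF ev lam Φ`, `E2 ev lam`;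
* `Tot E B C`: a compact set `E` in `W × S³`, invariant under `±` of the second factor, with its two
  projections to `B ⊆ W` (`h.p`, `h.pr`) and to `C ⊆ S³` (`h.s`, `h.sr`, modulo `±`); `ak k` the class
  `a ^ k` on `E`; `h.c2`, `h.c3`, `h.c4`: linear combinations of `1, a, a², a³`; `h.d2`, `h.d3`: of `1, w, w²`;
* `TS ev B A`, `VE ev B e`, `UE ev B e`: the total spaces `{g(x) = 0}`, `{e ≤ g(x)}`, `{g(x) ≤ e}`;
* `TF F ev lam`: the facts from T1; `WF F ev lam w`: moreover the class `w`.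
-/

set_option autoImplicit false

open HoloConj Pool.Agent.Lib.SingHom Module AS

namespace TightRP

namespace C3

/-! ## Evaluation vectors -/

section pt

variable (ev : W →ₗ[ℝ] (RP3 → ℝ))

/-- the evaluation at `z` as a vector -/
noncomputable def pt (z : RP3) : W := WithLp.toLp 2 fun i => ev (EuclideanSpace.single i 1) z

theorem ev_pt (g : W) (z : RP3) : ev g z = inner ℝ (pt ev z) g := by
  have h1 : g = ∑ i, g i • (EuclideanSpace.single i (1 : ℝ) : W) := by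
    ext j
    simp [Finset.sum_apply, Pi.single_apply]
  conv_lhs => rw [h1]
  rw [map_sum, Finset.sum_apply, PiLp.inner_apply]
  refine Finset.sum_congr rfl fun i _ => ?_
  rw [map_smul, Pi.smul_apply, smul_eq_mul]
  rfl

theorem pt_eq_iff (y z : RP3) : pt ev y = pt ev z ↔ ∀ g, ev g y = ev g z := by
  constructor
  · intro h g
    rw [ev_pt, ev_pt, h]
  · intro h
    ext i
    exact h _

variable {ev} {F : Type} [Field F]

theorem pt_cont (h : CSys F ev) : Continuous (pt ev) := by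
  unfold pt
  exact (PiLp.continuous_toLp 2 _).comp (continuous_pi fun i => h.cont _)

theorem ev_cont (h : CSys F ev) : Continuous fun p : W × RP3 => ev p.1 p.2 := by
  have h1 : (fun p : W × RP3 => ev p.1 p.2) = fun p => inner ℝ (pt ev p.2) p.1 := by
    funext p
    exact ev_pt ev p.1 p.2
  rw [h1]
  exact ((pt_cont h).comp continuous_snd).inner continuous_fst

theorem ev_contOn (h : CSys F ev) :
    ContinuousOn (fun p : W × E4 => ev p.1 (pj p.2)) (Set.univ ×ˢ Sp) := by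
  refine (ev_cont h).comp_continuousOn (f := fun p : W × E4 => (p.1, pj p.2)) ?_
  refine continuous_fst.continuousOn.prodMk (pj_cont.comp continuous_snd.continuousOn ?_)
  exact fun p hp => hp.2

end pt

/-! ## Types, normalized sets -/

/-- the class `a ^ k` on `A` -/
noncomputable def apu (k : ℕ) (A : Set RP3) : H (Pm E4) ∅ k (up A) := ap k (up A) (zero_notMem_up A)

section types

variable (ev : W →ₗ[ℝ] (RP3 → ℝ))

/-- `a ^ i ≠ 0` on the zero set of `g` -/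
def Ty (i : ℕ) (g : W) : Prop := apu i (Zr ev g) ≠ 0

/-- `lam` is positive on the nonzero elements of the cone -/
def Nm (lam : W →ₗ[ℝ] ℝ) : Prop := ∀ g ∈ Cn ev, g ≠ 0 → 0 < lam g

/-- the normalized elements of `Φ` -/
def PF (lam : W →ₗ[ℝ] ℝ) (Φ : Set W) : Set W := {g | g ∈ Φ ∧ lam g = 1}

/-- the normalized elements of type two of `Φ` -/
def SF (lam : W →ₗ[ℝ] ℝ) (Φ : Set W) : Set W := {g | g ∈ Φ ∧ g ∈ T2set ev ∧ lam g = 1}

/-- the normalized functions of type two -/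
def E2 (lam : W →ₗ[ℝ] ℝ) : Set W := {g | g ∈ T2set ev ∧ lam g = 1}

/-- the elements of `Z` which vanish at `z` -/
def Zz (Z : Set W) (z : RP3) : Set W := {g | g ∈ Z ∧ ev g z = 0}

/-- the normalized elements of `Φ` whose zero set is not even -/
def Sb (lam : W →ₗ[ℝ] ℝ) (Φ : Set W) : Set W := {g | g ∈ Φ ∧ lam g = 1 ∧ Ty ev 1 g}

/-- the points at which some element of `B` vanishes -/
def MB (B : Set W) : Set RP3 := {z | ∃ g ∈ B, ev g z = 0}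

/-- a face of rank three: common zeros, and an element with even zero set -/
structure F3 (Φ : Set W) : Prop where
  fc : IsFace ev Φ
  ne : (Xz ev Φ).Nonempty
  rk : ∃ g ∈ Φ, Rk3 ev g

/-- a minimal face of rank three -/
structure Min3 (Φ : Set W) : Prop extends F3 ev Φ where
  min : ∀ Ψ, IsFace ev Ψ → Ψ ⊆ Φ → Ψ ≠ Φ → ∀ g ∈ Ψ, Ty ev 1 g

/-- the points `z` such that `Φ ∩ Nf z` has rank three -/
def M3 (Φ : Set W) : Set RP3 := {z | ∃ g ∈ Φ, ev g z = 0 ∧ Rk3 ev g}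

variable {ev}

theorem SF_sub (lam : W →ₗ[ℝ] ℝ) (Φ : Set W) : SF ev lam Φ ⊆ E2 ev lam := fun _ h => h.2

theorem SF_mono (lam : W →ₗ[ℝ] ℝ) {Φ Ψ : Set W} (h : Φ ⊆ Ψ) : SF ev lam Φ ⊆ SF ev lam Ψ :=
  fun _ hg => ⟨h hg.1, hg.2⟩

theorem Zz_sub (Z : Set W) (z : RP3) : Zz ev Z z ⊆ Z := fun _ h => h.1

theorem Zz_mono {Y Z : Set W} (h : Y ⊆ Z) (z : RP3) : Zz ev Y z ⊆ Zz ev Z z :=
  fun _ hg => ⟨h hg.1, hg.2⟩

theorem Zz_SF (lam : W →ₗ[ℝ] ℝ) (Φ : Set W) (z : RP3) :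
    Zz ev (SF ev lam Φ) z = SF ev lam (Φ ∩ Nf ev z) := by
  ext g
  constructor
  · rintro ⟨⟨h1, h2, h3⟩, h4⟩
    exact ⟨⟨h1, h2.1, h4⟩, h2, h3⟩
  · rintro ⟨⟨h1, h4⟩, h2, h3⟩
    exact ⟨⟨h1, h2, h3⟩, h4.2⟩

theorem Zz_E2 (lam : W →ₗ[ℝ] ℝ) (z : RP3) : Zz ev (E2 ev lam) z = SF ev lam (Nf ev z) := by
  ext g
  constructor
  · rintro ⟨⟨h2, h3⟩, h4⟩
    exact ⟨⟨h2.1, h4⟩, h2, h3⟩
  · rintro ⟨h4, h2, h3⟩
    exact ⟨⟨h2, h3⟩, h4.2⟩

theorem E2_eq (lam : W →ₗ[ℝ] ℝ) : E2 ev lam = SF ev lam (Cn ev) := by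
  ext g
  exact ⟨fun h => ⟨h.1.1, h⟩, fun h => h.2⟩

end types

/-! ## Total spaces -/

/-- the fibre over `g` of the first projection -/
def fib (E : Set (W × E4)) (g : W) : Set E4 := {x | (g, x) ∈ E}

/-- the fibre over `x` of the second projection -/
def sec (E : Set (W × E4)) (x : E4) : Set W := {g | (g, x) ∈ E}

/-- a compact invariant set in `W × S³`, with its projections to `B` and `C` -/
structure Tot (E : Set (W × E4)) (B : Set W) (C : Set E4) : Prop where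
  cE : IsCompact E
  in2 : In2 E
  cB : IsCompact B
  cC : IsCompact C
  sC : C ⊆ Sp
  nC : ∀ x ∈ C, -x ∈ C
  m1 : ∀ p ∈ E, p.1 ∈ B
  m2 : ∀ p ∈ E, p.2 ∈ C

/-- the class `a ^ k` on `E` -/
noncomputable def ak (k : ℕ) {E : Set (W × E4)} (h : In2 E) : H (Pm2 W) ∅ k E :=
  pull Prod.snd (adm_snd (∅ : Set E4) h.sub) k (ap k Sp zero_notMem_Sp)

/-- the class `ak 1` is the class `av` of `C/Wd` -/
theorem av_eq_ak {E : Set (W × E4)} (h : In2 E) : av E h.sub = ak 1 h := rfl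

theorem ak_eq_pw (k : ℕ) {E : Set (W × E4)} (h : In2 E) : ak k h = pw (ak 1 h) k := by
  unfold ak
  rw [← pull_pw, ← ap_eq_pw]

namespace Tot

variable {E : Set (W × E4)} {B : Set W} {C : Set E4}

theorem z (h : Tot E B C) : (0 : E4) ∉ C := fun h0 => zero_notMem_Sp (h.sC h0)

/-- pullback along the first projection -/
noncomputable def p (h : Tot E B C) (n : ℕ) :
    H (⊥ : Subgroup (W ≃ᵢ W)) ∅ n B →+ H (Pm2 W) ∅ n E :=
  pull Prod.fst (adm_fst (∅ : Set W) h.m1) n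

/-- pullback along the first projection, relative to `D` -/
noncomputable def pr (h : Tot E B C) (D : Set W) (n : ℕ) :
    H (⊥ : Subgroup (W ≃ᵢ W)) D n B →+ H (Pm2 W) (Prod.fst ⁻¹' D) n E :=
  pull Prod.fst (adm_fst D h.m1) n

/-- pullback along the second projection -/
noncomputable def s (h : Tot E B C) (n : ℕ) : H (Pm E4) ∅ n C →+ H (Pm2 W) ∅ n E :=
  pull Prod.snd (adm_snd (∅ : Set E4) h.m2) n

/-- pullback along the second projection, relative to `D` -/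
noncomputable def sr (h : Tot E B C) (D : Set E4) (n : ℕ) :
    H (Pm E4) D n C →+ H (Pm2 W) (Prod.snd ⁻¹' D) n E :=
  pull Prod.snd (adm_snd D h.m2) n

/-- `x + y a` -/
noncomputable def c2 (h : Tot E B C) (n : ℕ) (x : H (⊥ : Subgroup (W ≃ᵢ W)) ∅ (n + 1) B)
    (y : H (⊥ : Subgroup (W ≃ᵢ W)) ∅ n B) : H (Pm2 W) ∅ (n + 1) E :=
  h.p (n + 1) x + cupH ∅ (n + 1) (h.p n y) (ak 1 h.in2)

/-- `x + y a + z a²` -/
noncomputable def c3 (h : Tot E B C) (n : ℕ) (x : H (⊥ : Subgroup (W ≃ᵢ W)) ∅ (n + 2) B)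
    (y : H (⊥ : Subgroup (W ≃ᵢ W)) ∅ (n + 1) B) (z : H (⊥ : Subgroup (W ≃ᵢ W)) ∅ n B) :
    H (Pm2 W) ∅ (n + 2) E :=
  h.p (n + 2) x + cupH ∅ (n + 2) (h.p (n + 1) y) (ak 1 h.in2) +
    cupH ∅ (n + 2) (h.p n z) (ak 2 h.in2)

/-- `x + y a + z a² + u a³` -/
noncomputable def c4 (h : Tot E B C) (n : ℕ) (x : H (⊥ : Subgroup (W ≃ᵢ W)) ∅ (n + 3) B)
    (y : H (⊥ : Subgroup (W ≃ᵢ W)) ∅ (n + 2) B) (z : H (⊥ : Subgroup (W ≃ᵢ W)) ∅ (n + 1) B)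
    (u : H (⊥ : Subgroup (W ≃ᵢ W)) ∅ n B) : H (Pm2 W) ∅ (n + 3) E :=
  h.p (n + 3) x + cupH ∅ (n + 3) (h.p (n + 2) y) (ak 1 h.in2) +
    cupH ∅ (n + 3) (h.p (n + 1) z) (ak 2 h.in2) + cupH ∅ (n + 3) (h.p n u) (ak 3 h.in2)

/-- `x + y a` in the groups relative to `D` -/
noncomputable def c2r (h : Tot E B C) (D : Set W) (n : ℕ)
    (x : H (⊥ : Subgroup (W ≃ᵢ W)) D (n + 1) B) (y : H (⊥ : Subgroup (W ≃ᵢ W)) D n B) :
    H (Pm2 W) (Prod.fst ⁻¹' D) (n + 1) E :=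
  h.pr D (n + 1) x + cupH (Prod.fst ⁻¹' D) (n + 1) (h.pr D n y) (ak 1 h.in2)

/-- `x + y a + z a²` in the groups relative to `D` -/
noncomputable def c3r (h : Tot E B C) (D : Set W) (n : ℕ)
    (x : H (⊥ : Subgroup (W ≃ᵢ W)) D (n + 2) B) (y : H (⊥ : Subgroup (W ≃ᵢ W)) D (n + 1) B)
    (z : H (⊥ : Subgroup (W ≃ᵢ W)) D n B) : H (Pm2 W) (Prod.fst ⁻¹' D) (n + 2) E :=
  h.pr D (n + 2) x + cupH (Prod.fst ⁻¹' D) (n + 2) (h.pr D (n + 1) y) (ak 1 h.in2) +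
    cupH (Prod.fst ⁻¹' D) (n + 2) (h.pr D n z) (ak 2 h.in2)

/-- `x + y w`, classes `x`, `y` from the second projection -/
noncomputable def d2r (h : Tot E B C) (D : Set E4) (w : H (⊥ : Subgroup (W ≃ᵢ W)) ∅ 1 B) (n : ℕ)
    (x : H (Pm E4) D (n + 1) C) (y : H (Pm E4) D n C) :
    H (Pm2 W) (Prod.snd ⁻¹' D) (n + 1) E :=
  h.sr D (n + 1) x + cupH (Prod.snd ⁻¹' D) (n + 1) (h.sr D n y) (h.p 1 w)

/-- `x + y w + z v` (`v` of degree two), classes `x`, `y`, `z` from the second projection -/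
noncomputable def d3r (h : Tot E B C) (D : Set E4) (w : H (⊥ : Subgroup (W ≃ᵢ W)) ∅ 1 B)
    (v : H (⊥ : Subgroup (W ≃ᵢ W)) ∅ 2 B) (n : ℕ) (x : H (Pm E4) D (n + 2) C)
    (y : H (Pm E4) D (n + 1) C) (z : H (Pm E4) D n C) :
    H (Pm2 W) (Prod.snd ⁻¹' D) (n + 2) E :=
  h.sr D (n + 2) x + cupH (Prod.snd ⁻¹' D) (n + 2) (h.sr D (n + 1) y) (h.p 1 w) +
    cupH (Prod.snd ⁻¹' D) (n + 2) (h.sr D n z) (h.p 2 v)

end Tot

/-! ## Products on the base -/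

section base

variable {B : Set W}

/-- `w²` -/
noncomputable abbrev sq (w : H (⊥ : Subgroup (W ≃ᵢ W)) ∅ 1 B) :
    H (⊥ : Subgroup (W ≃ᵢ W)) ∅ 2 B := pw w 2

/-- `w³` -/
noncomputable abbrev cu (w : H (⊥ : Subgroup (W ≃ᵢ W)) ∅ 1 B) :
    H (⊥ : Subgroup (W ≃ᵢ W)) ∅ 3 B := pw w 3

/-- `w⁴` -/
noncomputable abbrev qu (w : H (⊥ : Subgroup (W ≃ᵢ W)) ∅ 1 B) :
    H (⊥ : Subgroup (W ≃ᵢ W)) ∅ 4 B := pw w 4

theorem res_sq {A : Set W} (h : A ⊆ B) (w : H (⊥ : Subgroup (W ≃ᵢ W)) ∅ 1 B) :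
    res h 2 (sq w) = sq (res h 1 w) := res_pw h w 2

theorem res_cu {A : Set W} (h : A ⊆ B) (w : H (⊥ : Subgroup (W ≃ᵢ W)) ∅ 1 B) :
    res h 3 (cu w) = cu (res h 1 w) := res_pw h w 3

theorem res_qu {A : Set W} (h : A ⊆ B) (w : H (⊥ : Subgroup (W ≃ᵢ W)) ∅ 1 B) :
    res h 4 (qu w) = qu (res h 1 w) := res_pw h w 4

/-- the relation `a³ = w³ + w² a + w a²` on `E`, and `w⁴ = 0` -/
structure Rel {E : Set (W × E4)} {C : Set E4} (h : Tot E B C)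
    (w : H (⊥ : Subgroup (W ≃ᵢ W)) ∅ 1 B) : Prop where
  a3 : ak 3 h.in2 = h.c3 1 (cu w) (sq w) w
  w4 : qu w = 0

end base

/-! ## The total spaces of the functions -/

section total

variable (ev : W →ₗ[ℝ] (RP3 → ℝ))

/-- the pairs `(g, x)`, `g ∈ B`, `x` over `A`, `g(x) = 0` -/
def TS (B : Set W) (A : Set RP3) : Set (W × E4) :=
  {p | p.1 ∈ B ∧ p.2 ∈ up A ∧ ev p.1 (pj p.2) = 0}

/-- the pairs with `g(x) ≤ e` -/
def UE (B : Set W) (e : ℝ) : Set (W × E4) := {p | p.1 ∈ B ∧ p.2 ∈ Sp ∧ ev p.1 (pj p.2) ≤ e}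

/-- the pairs `(g, x)` such that `x` is a maximum of `g` -/
def XE (B : Set W) : Set (W × E4) :=
  {p | p.1 ∈ B ∧ p.2 ∈ Sp ∧ ∀ y ∈ Sp, ev p.1 (pj y) ≤ ev p.1 (pj p.2)}

variable {ev}

theorem TS_fst {B Z : Set W} {A : Set RP3} (h : Z ⊆ B) :
    TS ev B A ∩ Prod.fst ⁻¹' Z = TS ev Z A := by
  ext p
  exact ⟨fun hp => ⟨hp.2, hp.1.2⟩, fun hp => ⟨⟨h hp.1, hp.2⟩, hp.1⟩⟩

theorem TS_snd {B : Set W} {A A' : Set RP3} (h : A' ⊆ A) :
    TS ev B A ∩ Prod.snd ⁻¹' (up A') = TS ev B A' := by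
  ext p
  exact ⟨fun hp => ⟨hp.1.1, hp.2, hp.1.2.2⟩, fun hp => ⟨⟨hp.1, up_mono h hp.2.1, hp.2.2⟩, hp.2.1⟩⟩

theorem TS_mono {B B' : Set W} {A A' : Set RP3} (h : B ⊆ B') (h' : A ⊆ A') :
    TS ev B A ⊆ TS ev B' A' := fun _ hp => ⟨h hp.1, up_mono h' hp.2.1, hp.2.2⟩

theorem fib_TS {B : Set W} {A : Set RP3} {g : W} (hg : g ∈ B) :
    fib (TS ev B A) g = up (A ∩ Zr ev g) := by
  ext x
  exact ⟨fun h => ⟨h.2.1.1, h.2.1.2, h.2.2⟩, fun h => ⟨hg, ⟨h.1, h.2.1⟩, h.2.2⟩⟩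

theorem fib_TS_univ {B : Set W} {g : W} (hg : g ∈ B) :
    fib (TS ev B Set.univ) g = up (Zr ev g) := by
  rw [fib_TS hg, Set.univ_inter]

theorem sec_TS {B : Set W} {A : Set RP3} {x : E4} (hx : x ∈ up A) :
    sec (TS ev B A) x = Zz ev B (pj x) := by
  ext g
  exact ⟨fun h => ⟨h.1, h.2.2⟩, fun h => ⟨h.1, hx, h.2⟩⟩

theorem fib_VE {B : Set W} {e : ℝ} {g : W} (hg : g ∈ B) :
    fib (VE ev B e) g = up {x | e ≤ ev g x} := by
  ext x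
  exact ⟨fun h => ⟨h.2.1, h.2.2⟩, fun h => ⟨hg, h.1, h.2⟩⟩

theorem fib_UE {B : Set W} {e : ℝ} {g : W} (hg : g ∈ B) :
    fib (UE ev B e) g = up {x | ev g x ≤ e} := by
  ext x
  exact ⟨fun h => ⟨h.2.1, h.2.2⟩, fun h => ⟨hg, h.1, h.2⟩⟩

theorem up_neg {A : Set RP3} {x : E4} (h : x ∈ up A) : -x ∈ up A := neg_mem_up h

variable {F : Type} [Field F]

/-- compactness of the sets of pairs -/
theorem cpt_pairs (h : CSys F ev) {B : Set W} (hB : IsCompact B) {A : Set RP3} (hA : IsClosed A)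
    {T : Set ℝ} (hT : IsClosed T) :
    IsCompact {p : W × E4 | p.1 ∈ B ∧ p.2 ∈ up A ∧ ev p.1 (pj p.2) ∈ T} := by
  have h1 : IsCompact (B ×ˢ up A) := hB.prod (up_compact hA)
  have h2 : ContinuousOn (fun p : W × E4 => ev p.1 (pj p.2)) (B ×ˢ up A) :=
    (ev_contOn h).mono fun p hp => ⟨trivial, up_sub A hp.2⟩
  have h3 : IsClosed ((B ×ˢ up A) ∩ (fun p : W × E4 => ev p.1 (pj p.2)) ⁻¹' T) :=
    h2.preimage_isClosed_of_isClosed h1.isClosed hT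
  have h4 := h1.of_isClosed_subset h3 Set.inter_subset_left
  convert h4 using 1
  ext p
  simp only [Set.mem_ofPred_eq, Set.mem_inter_iff, Set.mem_prod, Set.mem_preimage]
  tauto

theorem tot_TS (h : CSys F ev) {B : Set W} (hB : IsCompact B) {A : Set RP3} (hA : IsClosed A) :
    Tot (TS ev B A) B (up A) where
  cE := by
    have h1 := cpt_pairs h hB hA (isClosed_singleton (x := (0 : ℝ)))
    exact h1
  in2 := ⟨fun p hp => up_sub A hp.2.1, fun p hp => ⟨hp.1, neg_mem_up hp.2.1, by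
    show ev p.1 (pj (-p.2)) = 0
    rw [pj_neg (up_sub A hp.2.1)]
    exact hp.2.2⟩⟩
  cB := hB
  cC := up_compact hA
  sC := up_sub A
  nC := fun _ hx => neg_mem_up hx
  m1 := fun _ hp => hp.1
  m2 := fun _ hp => hp.2.1

/-- the second projection of `TS ev B univ` goes to `up C` for every closed `C` which contains `MB ev B` -/
theorem tot_TS' (h : CSys F ev) {B : Set W} (hB : IsCompact B) {C : Set RP3} (hC : IsClosed C)
    (hBC : MB ev B ⊆ C) : Tot (TS ev B Set.univ) B (up C) where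
  cE := (tot_TS h hB isClosed_univ).cE
  in2 := (tot_TS h hB isClosed_univ).in2
  cB := hB
  cC := up_compact hC
  sC := up_sub C
  nC := fun _ hx => neg_mem_up hx
  m1 := fun _ hp => hp.1
  m2 := fun p hp => ⟨hp.2.1.1, hBC ⟨p.1, hp.1, hp.2.2⟩⟩

/-- the same with `C = S³` -/
theorem tot_TSp (h : CSys F ev) {B : Set W} (hB : IsCompact B) : Tot (TS ev B Set.univ) B Sp := by
  have h1 := tot_TS h hB (isClosed_univ (X := RP3))
  rw [up_univ] at h1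
  exact h1

theorem tot_VE (h : CSys F ev) {B : Set W} (hB : IsCompact B) (e : ℝ) : Tot (VE ev B e) B Sp where
  cE := by
    have h1 := cpt_pairs h hB (isClosed_univ (X := RP3)) (isClosed_Ici (a := e))
    rw [up_univ] at h1
    exact h1
  in2 := ⟨fun p hp => hp.2.1, fun p hp => ⟨hp.1, neg_mem_Sp hp.2.1, by
    show e ≤ ev p.1 (pj (-p.2))
    rw [pj_neg hp.2.1]
    exact hp.2.2⟩⟩
  cB := hB
  cC := isCompact_sphere _ _
  sC := Set.Subset.refl _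
  nC := fun _ hx => neg_mem_Sp hx
  m1 := fun _ hp => hp.1
  m2 := fun _ hp => hp.2.1

theorem tot_UE (h : CSys F ev) {B : Set W} (hB : IsCompact B) (e : ℝ) : Tot (UE ev B e) B Sp where
  cE := by
    have h1 := cpt_pairs h hB (isClosed_univ (X := RP3)) (isClosed_Iic (a := e))
    rw [up_univ] at h1
    exact h1
  in2 := ⟨fun p hp => hp.2.1, fun p hp => ⟨hp.1, neg_mem_Sp hp.2.1, by
    show ev p.1 (pj (-p.2)) ≤ e
    rw [pj_neg hp.2.1]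
    exact hp.2.2⟩⟩
  cB := hB
  cC := isCompact_sphere _ _
  sC := Set.Subset.refl _
  nC := fun _ hx => neg_mem_Sp hx
  m1 := fun _ hp => hp.1
  m2 := fun _ hp => hp.2.1

theorem tot_XE (h : CSys F ev) {B : Set W} (hB : IsCompact B) : Tot (XE ev B) B Sp where
  cE := by
    have h1 : IsCompact (B ×ˢ Sp) := hB.prod (isCompact_sphere _ _)
    have h2 : XE ev B = (B ×ˢ Sp) ∩ ⋂ y ∈ Sp,
        {p | p ∈ B ×ˢ Sp ∧ ev p.1 (pj y) ≤ ev p.1 (pj p.2)} := by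
      ext p
      simp only [XE, Set.mem_ofPred_eq, Set.mem_inter_iff, Set.mem_prod, Set.mem_iInter]
      constructor
      · rintro ⟨h3, h4, h5⟩
        exact ⟨⟨h3, h4⟩, fun y hy => ⟨⟨h3, h4⟩, h5 y hy⟩⟩
      · rintro ⟨⟨h3, h4⟩, h5⟩
        exact ⟨h3, h4, fun y hy => (h5 y hy).2⟩
    rw [h2]
    refine h1.inter_right (isClosed_biInter fun y _ => ?_)
    have h3 : ContinuousOn (fun p : W × E4 => ev p.1 (pj p.2) - ev p.1 (pj y)) (B ×ˢ Sp) := by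
      refine ((ev_contOn h).mono fun p hp => ⟨trivial, hp.2⟩).sub (Continuous.continuousOn ?_)
      exact (ev_cont h).comp (continuous_fst.prodMk continuous_const)
    have h4 := h3.preimage_isClosed_of_isClosed h1.isClosed (isClosed_Ici (a := (0 : ℝ)))
    convert h4 using 1
    ext p
    simp only [Set.mem_ofPred_eq, Set.mem_inter_iff, Set.mem_preimage, Set.mem_Ici, sub_nonneg]
  in2 := ⟨fun p hp => hp.2.1, fun p hp => ⟨hp.1, neg_mem_Sp hp.2.1, by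
    show ∀ y ∈ Sp, ev p.1 (pj y) ≤ ev p.1 (pj (-p.2))
    rw [pj_neg hp.2.1]
    exact hp.2.2⟩⟩
  cB := hB
  cC := isCompact_sphere _ _
  sC := Set.Subset.refl _
  nC := fun _ hx => neg_mem_Sp hx
  m1 := fun _ hp => hp.1
  m2 := fun _ hp => hp.2.1

end total

/-! ## The facts from T1, and the class `w` -/

/-- the facts from T1 for the system `ev` and the normalization `lam` -/
structure TF (F : Type) [Field F] (ev : W →ₗ[ℝ] (RP3 → ℝ)) (lam : W →ₗ[ℝ] ℝ) : Prop where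
  sys : CSys F ev
  nm : Nm ev lam
  cpt : IsCompact (PF lam (Cn ev))
  /-- (top) -/
  top : ∀ (A : Set RP3) (k : ℕ), IsClosed A → (4 ≤ k ∨ (3 ≤ k ∧ A ≠ Set.univ)) →
    ∀ x : H (Pm E4) ∅ k (up A), x = 0
  /-- the cohomology of `RP³` -/
  rp : Bas4 (Pm E4) Sp (ap 1 Sp zero_notMem_Sp) (ap 2 Sp zero_notMem_Sp) (ap 3 Sp zero_notMem_Sp)
  pow : ∀ (A : Set RP3) (i j : ℕ), i ≤ j → apu i A = 0 → apu j A = 0
  evn : ∀ A : Set RP3, IsClosed A → (apu 1 A = 0 ↔ Even A)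
  /-- zero sets of type one and two -/
  z2 : ∀ g ∈ Cn ev, Ty ev 1 g → ¬ Ty ev 2 g →
    Bas2 (Pm E4) (up (Zr ev g)) 1 (apu 1 (Zr ev g))
  z3 : ∀ g ∈ Cn ev, g ≠ 0 → Ty ev 2 g →
    Bas3 (Pm E4) (up (Zr ev g)) (apu 1 (Zr ev g)) (apu 2 (Zr ev g))
  t2 : ∀ g, g ∈ T2set ev ↔ g ∈ Cn ev ∧ g ≠ 0 ∧ Ty ev 2 g
  r3 : ∀ g ∈ Cn ev, (Zr ev g).Nonempty → (Rk3 ev g ↔ ¬ Ty ev 1 g)
  mono : ∀ (g h : W) (i : ℕ), Zr ev g ⊆ Zr ev h → Ty ev i g → Ty ev i h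
  clo : ∀ i : ℕ, IsClosed {g | g ∈ Cn ev ∧ Ty ev i g}
  /-- superlevel and sublevel sets of functions of type two -/
  ve : ∀ g ∈ T2set ev, ∀ e > 0, (∃ x, e ≤ ev g x) → Acy (Pm E4) (up {x | e ≤ ev g x})
  ue : ∀ g ∈ T2set ev, ∀ e, 0 ≤ e → (∃ x, e < ev g x) →
    Bas3 (Pm E4) (up {x | ev g x ≤ e}) (apu 1 {x | ev g x ≤ e}) (apu 2 {x | ev g x ≤ e})
  mx : ∀ g ∈ T2set ev, ∀ z, (∀ y, ev g y ≤ ev g z) → ∃ h ∈ Nf ev z, Rk3 ev h ∧
    ∀ x, ev h x = ev g z - ev g x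
  /-- faces -/
  fcl : ∀ Φ, IsFace ev Φ → IsClosed Φ
  fri : ∀ Φ, IsFace ev Φ → ∃ g, RI Φ g
  fxz : ∀ Φ g, IsFace ev Φ → RI Φ g → Xz ev Φ = Zr ev g
  fdm : ∀ Φ Ψ, IsFace ev Φ → IsFace ev Ψ → Ψ ⊆ Φ → Ψ ≠ Φ →
    dm Ψ < dm Φ ∧ ∀ g, RI Φ g → g ∉ Ψ
  fnz : ∀ Φ z, IsFace ev Φ → IsFace ev (Φ ∩ Nf ev z)
  fnf : ∀ z, IsFace ev (Nf ev z)
  ffc : ∀ g ∈ Cn ev, IsFace ev (Fc ev g) ∧ RI (Fc ev g) g ∧
    ∀ Φ, IsFace ev Φ → g ∈ Φ → Fc ev g ⊆ Φ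
  /-- existence of rank three, FILL, injectivity, J3 -/
  ex3 : ∃ g, Rk3 ev g
  fill : ∀ g, Rk3 ev g → ∀ x ∈ Zr ev g, ∀ y ∈ Zr ev g, ∀ s t : ℝ, 0 ≤ s → 0 ≤ t → s + t = 1 →
    ∃ z ∈ Zr ev g, ∀ h, ev h z = s * ev h x + t * ev h y
  inj : ∀ g, Rk3 ev g → ∀ x ∈ Zr ev g, ∀ y, (∀ h, ev h x = ev h y) → x = y
  j3 : ∀ Φ, IsFace ev Φ → (∃ g ∈ Φ, Rk3 ev g) → 6 ≤ dm Φ

/-- moreover: the class `w` on the normalized functions of type two -/
structure WF (F : Type) [Field F] (ev : W →ₗ[ℝ] (RP3 → ℝ)) (lam : W →ₗ[ℝ] ℝ)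
    (w : H (⊥ : Subgroup (W ≃ᵢ W)) ∅ 1 (E2 ev lam)) : Prop extends TF F ev lam where
  wv : ∃ e₀ > 0, (∀ g ∈ E2 ev lam, ∃ x, e₀ ≤ ev g x) ∧ ∀ e, 0 < e → e ≤ e₀ →
    ∀ h : Tot (VE ev (E2 ev lam) e) (E2 ev lam) Sp, h.p 1 w = ak 1 h.in2
  wr : ∀ h : Tot (TS ev (E2 ev lam) Set.univ) (E2 ev lam) Sp, Rel h w

/-- a positive functional exists -/
def NmStmt : Prop := ∀ (F : Type) [Field F] (ev : W →ₗ[ℝ] (RP3 → ℝ)), CSys F ev → ∃ lam, Nm ev lam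

/-- T1 -/
def TFStmt : Prop := ∀ (F : Type) [Field F] (ev : W →ₗ[ℝ] (RP3 → ℝ)) (lam : W →ₗ[ℝ] ℝ),
  CSys F ev → Nm ev lam → TF F ev lam

end C3

end TightRP
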