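import Pool.Agent.Lib.MP_7cdc3e_gt.C.T12.Defs
import Pool.Agent.Lib.MP_7cdc3e_gt.C.T3Reg

/-!
# MP_7cdc3e_gt, C32, T1: faces of the cone of nonnegative functions, positive functionals

The fields `cpt`, `fcl`, `fri`, `fxz`, `fdm`, `fnz`, `fnf`, `ffc` of `TF`, and `NmStmt`.
-/

set_option autoImplicit false

open Module

namespace TightRP

namespace C3

namespace Face

variable {ev : W →ₗ[ℝ] (RP3 → ℝ)}

/-! ## The cone -/

theorem cn_zero : (0 : W) ∈ Cn ev := fun x => by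
  rw [map_zero]
  exact le_rfl

theorem cn_add {g h : W} (hg : g ∈ Cn ev) (hh : h ∈ Cn ev) : g + h ∈ Cn ev := fun x => by
  rw [map_add]
  exact add_nonneg (hg x) (hh x)

theorem cn_smul {t : ℝ} (ht : 0 ≤ t) {g : W} (hg : g ∈ Cn ev) : t • g ∈ Cn ev := fun x => by
  rw [map_smul]
  exact mul_nonneg ht (hg x)

theorem cn_closed {F : Type} [Field F] (h : CSys F ev) : IsClosed (Cn ev) := by
  have h1 : Cn ev = ⋂ x, {g | 0 ≤ ev g x} := by
    ext g
    simp [Cn]
  rw [h1]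
  refine isClosed_iInter fun x => ?_
  exact isClosed_le continuous_const
    ((ev_cont h).comp (continuous_id.prodMk continuous_const))

variable {Φ Ψ : Set W}

theorem ext' (hF : IsFace ev Φ) {a b : W} (ha : a ∈ Cn ev) (hb : b ∈ Cn ev) (hab : a + b ∈ Φ) :
    b ∈ Φ := hF.ext b hb a ha (by rwa [add_comm])

theorem of_smul (hF : IsFace ev Φ) {t : ℝ} (ht : 0 < t) {a : W} (ha : t • a ∈ Φ) : a ∈ Φ := by
  have h1 := hF.smul t⁻¹ (inv_nonneg.2 ht.le) _ ha
  rwa [smul_smul, inv_mul_cancel₀ ht.ne', one_smul] at h1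

/-- the elements of the span of a face are differences of elements of the face -/
theorem span_diff (hF : IsFace ev Φ) {x : W} (hx : x ∈ Submodule.span ℝ Φ) :
    ∃ a ∈ Φ, ∃ b ∈ Φ, x = a - b := by
  induction hx using Submodule.span_induction with
  | mem x hx => exact ⟨x, hx, 0, hF.zero, (sub_zero x).symm⟩
  | zero => exact ⟨0, hF.zero, 0, hF.zero, (sub_zero 0).symm⟩
  | add x y _ _ h1 h2 =>
    obtain ⟨a, ha, b, hb, rfl⟩ := h1
    obtain ⟨c, hc, d, hd, rfl⟩ := h2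
    exact ⟨a + c, hF.add a ha c hc, b + d, hF.add b hb d hd, by module⟩
  | smul t x _ h1 =>
    obtain ⟨a, ha, b, hb, rfl⟩ := h1
    rcases le_total 0 t with ht | ht
    · exact ⟨t • a, hF.smul t ht a ha, t • b, hF.smul t ht b hb, by module⟩
    · exact ⟨(-t) • b, hF.smul _ (neg_nonneg.2 ht) b hb, (-t) • a,
        hF.smul _ (neg_nonneg.2 ht) a ha, by module⟩

/-- a face is the intersection of the cone with its span -/
theorem eq_span (hF : IsFace ev Φ) : Φ = Cn ev ∩ (Submodule.span ℝ Φ : Set W) := by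
  ext x
  constructor
  · exact fun hx => ⟨hF.sub hx, Submodule.subset_span hx⟩
  · rintro ⟨hx, hxs⟩
    obtain ⟨a, ha, b, hb, hab⟩ := span_diff hF hxs
    refine hF.ext x hx b (hF.sub hb) ?_
    rw [hab, sub_add_cancel]
    exact ha

theorem sum_mem (hF : IsFace ev Φ) {ι : Type} (s : Finset ι) (f : ι → W)
    (h : ∀ i ∈ s, f i ∈ Φ) : ∑ i ∈ s, f i ∈ Φ :=
  Finset.sum_induction _ (· ∈ Φ) (fun a b ha hb => hF.add a ha b hb) hF.zero h

theorem fcl_of {F : Type} [Field F] (h : CSys F ev) (hF : IsFace ev Φ) : IsClosed Φ := by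
  rw [eq_span hF]
  exact (cn_closed h).inter (Submodule.closed_of_finiteDimensional _)

theorem fri_of (hF : IsFace ev Φ) : ∃ g, RI Φ g := by
  classical
  obtain ⟨b, hb, hspan, hli⟩ := exists_linearIndependent ℝ Φ
  have hfin : Finite b := hli.finite
  have hft : Fintype b := Fintype.ofFinite b
  refine ⟨∑ i : b, (i : W), sum_mem hF _ _ fun i _ => hb i.2, fun h hh => ?_⟩
  have h1 : h ∈ Submodule.span ℝ (Set.range ((↑) : b → W)) := by
    rw [Subtype.range_coe, hspan]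
    exact Submodule.subset_span hh
  obtain ⟨c, hc⟩ := (Submodule.mem_span_range_iff_exists_fun ℝ).1 h1
  have h2 : 0 ≤ ∑ i, |c i| := Finset.sum_nonneg fun i _ => abs_nonneg _
  refine ⟨(∑ i, |c i| + 1)⁻¹, inv_pos.2 (by linarith), ?_⟩
  have h3 : (∑ i : b, (i : W)) - (∑ i, |c i| + 1)⁻¹ • h =
      ∑ i : b, (1 - (∑ i, |c i| + 1)⁻¹ * c i) • (i : W) := by
    rw [← hc, Finset.smul_sum, ← Finset.sum_sub_distrib]
    refine Finset.sum_congr rfl fun i _ => ?_
    rw [sub_smul, one_smul, smul_smul]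
  rw [h3]
  refine sum_mem hF _ _ fun i _ => hF.smul _ ?_ _ (hb i.2)
  have h4 : c i ≤ ∑ i, |c i| + 1 :=
    (le_abs_self _).trans ((Finset.single_le_sum (f := fun i => |c i|)
      (fun j _ => abs_nonneg _) (Finset.mem_univ i)).trans (by linarith))
  rw [sub_nonneg, inv_mul_le_iff₀ (by linarith), mul_one]
  exact h4

theorem fxz_of (hF : IsFace ev Φ) {g : W} (hg : RI Φ g) : Xz ev Φ = Zr ev g := by
  ext x
  constructor
  · exact fun hx => hx g hg.1
  · intro hx h hh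
    obtain ⟨t, ht, h1⟩ := hg.2 h hh
    have h2 := hF.sub h1 x
    rw [map_sub, map_smul] at h2
    have h3 : 0 ≤ ev g x - t * ev h x := h2
    have h4 : ev g x = 0 := hx
    have h5 := hF.sub hh x
    have h6 : 0 ≤ t * ev h x := mul_nonneg ht.le h5
    have h7 : t * ev h x = 0 := by linarith
    exact (mul_eq_zero.1 h7).resolve_left ht.ne'

/-- an element of the relative interior of a face is in no smaller face -/
theorem sub_of_ri (hF : IsFace ev Φ) (hG : IsFace ev Ψ) {g : W} (hg : RI Φ g) (hgΨ : g ∈ Ψ) :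
    Φ ⊆ Ψ := by
  intro h hh
  obtain ⟨t, ht, h1⟩ := hg.2 h hh
  refine of_smul hG ht (hG.ext (t • h) (cn_smul ht.le (hF.sub hh)) (g - t • h) (hF.sub h1) ?_)
  rw [add_sub_cancel]
  exact hgΨ

theorem fdm_of (hF : IsFace ev Φ) (hG : IsFace ev Ψ) (h1 : Ψ ⊆ Φ) (h2 : Ψ ≠ Φ) :
    dm Ψ < dm Φ ∧ ∀ g, RI Φ g → g ∉ Ψ := by
  refine ⟨?_, fun g hg hgΨ => h2 (Set.Subset.antisymm h1 (sub_of_ri hF hG hg hgΨ))⟩
  refine Submodule.finrank_lt_finrank_of_lt (lt_of_le_of_ne (Submodule.span_mono h1) ?_)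
  intro h3
  apply h2
  rw [eq_span hF, eq_span hG, h3]

theorem fin_of (hF : IsFace ev Φ) (hG : IsFace ev Ψ) : IsFace ev (Φ ∩ Ψ) where
  sub := fun _ h => hF.sub h.1
  zero := ⟨hF.zero, hG.zero⟩
  add := fun a ha b hb => ⟨hF.add a ha.1 b hb.1, hG.add a ha.2 b hb.2⟩
  smul := fun t ht a ha => ⟨hF.smul t ht a ha.1, hG.smul t ht a ha.2⟩
  ext := fun a ha b hb hab => ⟨hF.ext a ha b hb hab.1, hG.ext a ha b hb hab.2⟩

theorem fnz_of (hF : IsFace ev Φ) (z : RP3) : IsFace ev (Φ ∩ Nf ev z) :=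
  fin_of hF (isFace_Nf ev z)

theorem ffc_face {g : W} (hg : g ∈ Cn ev) : IsFace ev (Fc ev g) where
  sub := fun _ h => h.1
  zero := ⟨cn_zero, 1, one_pos, by rw [smul_zero, sub_zero]; exact hg⟩
  add := by
    rintro a ⟨ha, s, hs, h1⟩ b ⟨hb, t, ht, h2⟩
    have hst : 0 < s + t := add_pos hs ht
    refine ⟨cn_add ha hb, s * t / (s + t), div_pos (mul_pos hs ht) hst, ?_⟩
    have h3 : g - (s * t / (s + t)) • (a + b) =
        (t / (s + t)) • (g - s • a) + (s / (s + t)) • (g - t • b) := by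
      have e1 : g = (t / (s + t)) • g + (s / (s + t)) • g := by
        rw [← add_smul, ← add_div, add_comm t s, div_self hst.ne', one_smul]
      have e2 : s * t / (s + t) = t / (s + t) * s := by ring
      have e3 : s * t / (s + t) = s / (s + t) * t := by ring
      conv_lhs => rw [e1]
      rw [smul_add, smul_sub, smul_sub, smul_smul, smul_smul, ← e2, ← e3]
      abel
    rw [h3]
    exact cn_add (cn_smul (div_nonneg ht.le hst.le) h1) (cn_smul (div_nonneg hs.le hst.le) h2)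
  smul := by
    rintro c hc a ⟨ha, s, hs, h1⟩
    rcases hc.eq_or_lt with rfl | hc'
    · rw [zero_smul]
      exact ⟨cn_zero, 1, one_pos, by rw [smul_zero, sub_zero]; exact hg⟩
    · refine ⟨cn_smul hc ha, s / c, div_pos hs hc', ?_⟩
      rw [smul_smul, div_mul_cancel₀ _ hc'.ne']
      exact h1
  ext := by
    rintro a ha b hb ⟨_, s, hs, h1⟩
    refine ⟨ha, s, hs, ?_⟩
    have h2 : g - s • a = (g - s • (a + b)) + s • b := by module
    rw [h2]
    exact cn_add h1 (cn_smul hs.le hb)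

theorem ffc_ri {g : W} (hg : g ∈ Cn ev) : RI (Fc ev g) g := by
  refine ⟨⟨hg, 1, one_pos, by rw [one_smul, sub_self]; exact cn_zero⟩, ?_⟩
  rintro h ⟨hh, t, ht, h1⟩
  refine ⟨t, ht, h1, 1, one_pos, ?_⟩
  rw [one_smul, sub_sub_cancel]
  exact cn_smul ht.le hh

theorem ffc_sub (hF : IsFace ev Φ) {g : W} (hg : g ∈ Φ) : Fc ev g ⊆ Φ := by
  rintro h ⟨hh, t, ht, h1⟩
  refine of_smul hF ht (hF.ext (t • h) (cn_smul ht.le hh) _ h1 ?_)
  rw [add_sub_cancel]
  exact hg

theorem ffc_of {g : W} (hg : g ∈ Cn ev) : IsFace ev (Fc ev g) ∧ RI (Fc ev g) g ∧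
    ∀ Φ, IsFace ev Φ → g ∈ Φ → Fc ev g ⊆ Φ :=
  ⟨ffc_face hg, ffc_ri hg, fun _ hF hg' => ffc_sub hF hg'⟩

/-! ## Positive functionals -/

/-- finitely many points separate the functions -/
theorem exists_pts {F : Type} [Field F] (h : CSys F ev) :
    ∃ s : Finset RP3, ∀ g : W, (∀ z ∈ s, ev g z = 0) → g = 0 := by
  classical
  obtain ⟨b, hb, hspan, hli⟩ := exists_linearIndependent ℝ (Set.range (pt ev))
  have hfin : b.Finite := hli.setFinite
  have hne : Nonempty RP3 := ⟨pj 0⟩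
  choose! f hf using fun (v : W) (hv : v ∈ b) => hb hv
  refine ⟨hfin.toFinset.image f, fun g hg => ?_⟩
  have h1 : ∀ v ∈ Submodule.span ℝ b, inner ℝ v g = 0 := by
    intro v hv
    induction hv using Submodule.span_induction with
    | mem v hv =>
      have h2 := hg (f v) (Finset.mem_image_of_mem f (hfin.mem_toFinset.2 hv))
      rw [ev_pt, hf v hv] at h2
      exact h2
    | zero => exact inner_zero_left _
    | add v w _ _ h2 h3 => rw [inner_add_left, h2, h3, add_zero]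
    | smul t v _ h2 => rw [inner_smul_left, h2, mul_zero]
  apply h.inj
  rw [map_zero]
  funext z
  rw [ev_pt]
  refine h1 _ ?_
  rw [hspan]
  exact Submodule.subset_span ⟨z, rfl⟩

theorem nm_ok : NmStmt := by
  intro F _ ev h
  obtain ⟨s, hs⟩ := exists_pts h
  refine ⟨∑ z ∈ s, (LinearMap.proj z) ∘ₗ ev, fun g hg hg0 => ?_⟩
  have h1 : (∑ z ∈ s, (LinearMap.proj z) ∘ₗ ev) g = ∑ z ∈ s, ev g z := by
    rw [LinearMap.sum_apply]
    rfl
  rw [h1]
  refine lt_of_le_of_ne (Finset.sum_nonneg fun z _ => hg z) (fun h2 => hg0 (hs g ?_))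
  exact (Finset.sum_eq_zero_iff_of_nonneg fun z _ => hg z).1 h2.symm

theorem cpt_of {F : Type} [Field F] (h : CSys F ev) {lam : W →ₗ[ℝ] ℝ} (hl : Nm ev lam) :
    IsCompact (PF lam (Cn ev)) := by
  have hlc : Continuous lam := lam.continuous_of_finiteDimensional
  have hcl : IsClosed (PF lam (Cn ev)) :=
    (cn_closed h).inter (isClosed_eq hlc continuous_const)
  have hS : IsCompact (Cn ev ∩ Metric.sphere (0 : W) 1) :=
    (isCompact_sphere (0 : W) 1).inter_left (cn_closed h)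
  obtain ⟨c, hc, hc1⟩ : ∃ c > 0, ∀ g ∈ Cn ev ∩ Metric.sphere (0 : W) 1, c ≤ lam g := by
    rcases (Cn ev ∩ Metric.sphere (0 : W) 1).eq_empty_or_nonempty with h1 | h1
    · exact ⟨1, one_pos, fun g hg => (h1 ▸ hg).elim⟩
    · obtain ⟨g, hg, hg1⟩ := hS.exists_isMinOn h1 hlc.continuousOn
      refine ⟨lam g, hl g hg.1 ?_, fun k hk => hg1 hk⟩
      rintro rfl
      have := mem_sphere_zero_iff_norm.1 hg.2
      rw [norm_zero] at this
      exact zero_ne_one this
  refine (isCompact_closedBall (0 : W) c⁻¹).of_isClosed_subset hcl fun g hg => ?_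
  rw [mem_closedBall_zero_iff]
  by_cases hg0 : g = 0
  · rw [hg0, norm_zero]
    exact (inv_pos.2 hc).le
  · have hn : 0 < ‖g‖ := norm_pos_iff.2 hg0
    have h2 := hc1 (‖g‖⁻¹ • g) ⟨cn_smul (inv_nonneg.2 hn.le) hg.1, by
      rw [mem_sphere_zero_iff_norm, norm_smul, norm_inv, norm_norm, inv_mul_cancel₀ hn.ne']⟩
    rw [map_smul, hg.2, smul_eq_mul, mul_one] at h2
    exact (le_inv_comm₀ hc hn).1 h2

end Face

end C3

end TightRP
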